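import Pool.Agent.H655.GE.Code

/-! Metrics with isometric type spaces are at Gromov–Hausdorff distance zero. -/

namespace Pool.Agent.H655.GE

open Set Filter Topology Pool.Agent.H655.UR
open scoped ENNReal

variable {f g : Met}

/-- `H` moves the point `x` of the first code to within `η` of the point `y` of the second. -/
def NN (H : MM (theta f) ≃ᵢ MM (theta g)) (η : ℝ) (x y : TT') : Prop :=
  dist (H (pp f x)) (pp g y) < η

theorem NN_total (H : MM (theta f) ≃ᵢ MM (theta g)) (x : TT') {η : ℝ} (hη : 0 < η) :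
    ∃ y, NN H η x y := by
  obtain ⟨w', ⟨q, rfl⟩, hw'⟩ : ∃ w' ∈ range (pp g), dist (H (pp f x)) w' < η :=
    Metric.mem_closure_iff.1 (pp_dense g _) η hη
  exact ⟨q, hw'⟩

theorem NN_symm (H : MM (theta f) ≃ᵢ MM (theta g)) {x y : TT'} {η : ℝ} :
    NN H.symm η y x ↔ NN H η x y := by
  unfold NN
  rw [← H.isometry.dist_eq, IsometryEquiv.apply_symm_apply, dist_comm]

theorem NN_surj (H : MM (theta f) ≃ᵢ MM (theta g)) (y : TT') {η : ℝ} (hη : 0 < η) :
    ∃ x, NN H η x y := by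
  obtain ⟨x, hx⟩ := NN_total H.symm y hη
  exact ⟨x, (NN_symm H).1 hx⟩

theorem NN_dist (H : MM (theta f) ≃ᵢ MM (theta g)) {x y x' y' : TT'} {α β : ℝ}
    (h : NN H α x y) (h' : NN H β x' y') : |WX f f x x' - WX g g y y'| < α + β := by
  unfold NN at h h'
  rw [← pp_dist, ← pp_dist, ← H.isometry.dist_eq, abs_lt]
  have h1 := dist_triangle4 (H (pp f x)) (pp g y) (pp g y') (H (pp f x'))
  have h2 := dist_triangle4 (pp g y) (H (pp f x)) (H (pp f x')) (pp g y')
  have h3 := dist_comm (H (pp f x)) (pp g y)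
  have h4 := dist_comm (H (pp f x')) (pp g y')
  constructor <;> linarith

theorem lbl (f : Met) (m m' : ℕ) : WX f f (Sum.inl m) (Sum.inl m') =
    if m = m' then 0 else if m + 1 = m' ∨ m' + 1 = m then 9 / 10 else 1 := rfl

theorem NN_inl (H : MM (theta f) ≃ᵢ MM (theta g)) {m : ℕ} {y : TT'} {η : ℝ} (hη : η ≤ 1 / 50)
    (h : NN H η (Sum.inl m) y) : ∃ m', y = Sum.inl m' := by
  obtain ⟨y', hy'⟩ := NN_total H (Sum.inl (m + 1)) (show (0 : ℝ) < 1 / 50 by norm_num)
  have h1 := abs_lt.1 (NN_dist H h hy')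
  have h2 : WX f f (Sum.inl m) (Sum.inl (m + 1)) = 9 / 10 := by
    rw [lbl, if_neg (by omega), if_pos (by omega)]
  rw [h2] at h1
  rcases y with m' | q
  · exact ⟨m', rfl⟩
  · exfalso
    rcases y' with m' | q'
    · have := (vl'_mem g (lab' m') q.1).2
      simp only [WX] at h1
      linarith [h1.2]
    · have := tp_le g g q q'
      have e : WX g g (Sum.inr q) (Sum.inr q') = tp g g q q' := rfl
      rw [e] at h1
      linarith [h1.2]

theorem NN_uniq (H : MM (theta f) ≃ᵢ MM (theta g)) {x : TT'} {m m' : ℕ} {α β : ℝ}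
    (hα : α ≤ 1 / 50) (hβ : β ≤ 1 / 50) (h : NN H α x (Sum.inl m)) (h' : NN H β x (Sum.inl m')) :
    m = m' := by
  by_contra hne
  have h1 := abs_lt.1 (NN_dist H h h')
  rw [WX_self] at h1
  have h2 := (lb_bd m m').2.2 hne
  rw [lbl] at h1
  linarith [h1.1]

theorem lbl_adj {m m' n n' : ℕ} (h : |WX f f (Sum.inl m) (Sum.inl m') -
    WX g g (Sum.inl n) (Sum.inl n')| < 1 / 50 + 1 / 50) :
    (m + 1 = m' ∨ m' + 1 = m) ↔ (n + 1 = n' ∨ n' + 1 = n) := by
  rw [lbl, lbl, abs_lt] at h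
  constructor
  · intro h1
    rw [if_neg (by omega), if_pos h1] at h
    by_contra h2
    by_cases h3 : n = n'
    · rw [if_pos h3] at h
      linarith [h.2]
    · rw [if_neg h3, if_neg h2] at h
      linarith [h.1]
  · intro h1
    rw [if_neg (show ¬ n = n' by omega), if_pos h1] at h
    by_contra h2
    by_cases h3 : m = m'
    · rw [if_pos h3] at h
      linarith [h.1]
    · rw [if_neg h3, if_neg h2] at h
      linarith [h.2]

theorem NN_lab (H : MM (theta f) ≃ᵢ MM (theta g)) (m : ℕ) {η : ℝ} (hη : 0 < η) :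
    NN H η (Sum.inl m) (Sum.inl m) := by
  have h50 : (0 : ℝ) < 1 / 50 := by norm_num
  have e1 : ∀ m, ∃ m', NN H (1 / 50) (Sum.inl m) (Sum.inl m') := by
    intro m
    obtain ⟨y, hy⟩ := NN_total H (Sum.inl m) h50
    obtain ⟨m', rfl⟩ := NN_inl H le_rfl hy
    exact ⟨m', hy⟩
  have e2 : ∀ m, ∃ m', NN H (1 / 50) (Sum.inl m') (Sum.inl m) := by
    intro m
    obtain ⟨y, hy⟩ := NN_total H.symm (Sum.inl m) h50
    obtain ⟨m', rfl⟩ := NN_inl H.symm le_rfl hy
    exact ⟨m', (NN_symm H).1 hy⟩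
  choose φ hφ using e1
  choose φ' hφ' using e2
  have k1 : ∀ m, φ' (φ m) = m := by
    intro m
    have a1 := (NN_symm H).2 (hφ m)
    have a2 := (NN_symm H).2 (hφ' (φ m))
    exact NN_uniq H.symm le_rfl le_rfl a2 a1
  have k2 : ∀ m, φ (φ' m) = m := by
    intro m
    exact NN_uniq H le_rfl le_rfl (hφ (φ' m)) (hφ' m)
  have key := path_rigid φ φ' k1 k2 (fun m m' => lbl_adj (f := f) (g := g) (NN_dist H (hφ m) (hφ m')))
  have k3 : NN H (1 / 50) (Sum.inl m) (Sum.inl m) := by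
    have := hφ m
    rw [key] at this
    exact this
  have hmin : 0 < min η (1 / 50) := lt_min hη h50
  obtain ⟨y, hy⟩ := NN_total H (Sum.inl m) hmin
  obtain ⟨m', rfl⟩ := NN_inl H (min_le_right _ _) hy
  have k4 := NN_uniq H (min_le_right _ _) le_rfl hy k3
  subst k4
  exact lt_of_lt_of_le hy (min_le_left _ _)

theorem NN_inr (H : MM (theta f) ≃ᵢ MM (theta g)) {p : List ℕ × ℕ} {y : TT'} {η : ℝ}
    (hη : η ≤ 1 / 50) (h : NN H η (Sum.inr p) y) : ∃ q, y = Sum.inr q := by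
  rcases y with m' | q
  · exfalso
    have h1 := NN_lab H m' (show (0 : ℝ) < 1 / 50 by norm_num)
    have h2 := abs_lt.1 (NN_dist H h h1)
    rw [WX_self] at h2
    have h3 := (vl'_mem f (lab' m') p.1).1
    simp only [WX] at h2
    linarith [h2.2]
  · exact ⟨q, rfl⟩

theorem NN_vl (H : MM (theta f) ≃ᵢ MM (theta g)) {p q : List ℕ × ℕ} {η : ℝ}
    (h : NN H η (Sum.inr p) (Sum.inr q)) (l : Lb') :
    |vl' f l p.1 - vl' g l q.1| ≤ 10 * η := by
  obtain ⟨m, hm⟩ := lab'_surj l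
  apply le_of_forall_pos_le_add
  intro κ hκ
  have h1 := NN_lab H m (show 0 < κ / 10 by linarith)
  have h2 := abs_lt.1 (NN_dist H h h1)
  simp only [WX] at h2
  rw [hm] at h2
  rw [abs_le]
  constructor <;> linarith [h2.1, h2.2]

theorem NN_len (H : MM (theta f) ≃ᵢ MM (theta g)) {p q : List ℕ × ℕ} {η : ℝ}
    (hη : η ≤ 1 / 50) (h : NN H η (Sum.inr p) (Sum.inr q)) : p.1.length = q.1.length := by
  have h1 := NN_vl H h (Sum.inr p.1.length)
  simp only [vl', if_true] at h1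
  by_contra hne
  rw [if_neg (fun e => hne e.symm)] at h1
  rw [abs_le] at h1
  linarith [h1.2]

theorem tp_same {p q : List ℕ × ℕ} (h : p.1.length = q.1.length) :
    tp f g p q = (1 / 10) * max (dd f g p.1 q.1) (mx p q) := by
  unfold tp of EE
  rw [if_pos h, if_pos h]
  ring

theorem tp_succ {p q : List ℕ × ℕ} (h : q.1.length = p.1.length + 1) :
    tp f g p q = 7 / 10 + (1 / 10) * max (dd f g p.1 q.1.tail) (mx p q) := by
  unfold tp of EE
  rw [if_neg (by omega), if_neg (by omega), if_pos h]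

/-- Back-and-forth step. -/
theorem step (H : MM (theta f) ≃ᵢ MM (theta g)) {s t : List ℕ} {i j : ℕ} {η : ℝ}
    (hη : η ≤ 1 / 50) (h : NN H η (Sum.inr (s, i)) (Sum.inr (t, j))) (b : ℕ) {δ : ℝ}
    (hδ : 0 < δ) : ∃ a i' j', NN H (η + δ) (Sum.inr (a :: s, i')) (Sum.inr (b :: t, j')) := by
  set μ : ℝ := min (δ / 10) (1 / 200) with hμ
  have hμ0 : 0 < μ := lt_min (by linarith) (by norm_num)
  have hμ1 : μ ≤ δ / 10 := min_le_left _ _
  have hμ2 : μ ≤ 1 / 200 := min_le_right _ _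
  have hst := NN_len H hη h
  obtain ⟨y, hy⟩ := NN_total H (Sum.inr (s, i)) hμ0
  obtain ⟨⟨t0, j0⟩, rfl⟩ := NN_inr H (by linarith) hy
  have hst0 := NN_len H (show μ ≤ 1 / 50 by linarith) hy
  simp only at hst hst0
  have w1 : tp g g (t, j) (t0, j0) < η + μ := by
    have h1 := abs_lt.1 (NN_dist H h hy)
    rw [WX_self] at h1
    have e : WX g g (Sum.inr (t, j)) (Sum.inr (t0, j0)) = tp g g (t, j) (t0, j0) := rfl
    rw [e] at h1
    linarith [h1.1]
  rw [tp_same (by simp only; omega)] at w1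
  have w2 : dd g g t t0 < 10 * (η + μ) := by
    have := le_max_left (dd g g (t, j).1 (t0, j0).1) (mx (t, j) (t0, j0))
    simp only at this w1
    linarith
  obtain ⟨b0, hb0⟩ := (rel_of_dd w2 (by linarith)).cons b
  obtain ⟨j1, hj1⟩ := xx_dense (b0 :: t0) (xx (t0, j0)) hμ0
  obtain ⟨x, hx⟩ := NN_surj H (Sum.inr (b0 :: t0, j1)) hμ0
  obtain ⟨⟨u, l⟩, rfl⟩ := NN_inr H.symm (show μ ≤ 1 / 50 by linarith) ((NN_symm H).2 hx)
  have hu := NN_len H (show μ ≤ 1 / 50 by linarith) hx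
  simp only [List.length_cons] at hu
  have w3 : tp g g (t0, j0) (b0 :: t0, j1) ≤ 7 / 10 + μ / 10 := by
    rw [tp_succ (by simp)]
    have e1 : dd g g (t0, j0).1 (b0 :: t0, j1).1.tail = 0 := dd_self g t0
    have e2 : mx (t0, j0) (b0 :: t0, j1) < μ := mx_lt (by rw [abs_sub_comm]; exact hj1)
    rw [e1]
    have := max_le hμ0.le e2.le
    linarith
  have w4 : tp f f (s, i) (u, l) < 7 / 10 + μ / 10 + 2 * μ := by
    have h1 := abs_lt.1 (NN_dist H hy hx)
    have e : WX g g (Sum.inr (t0, j0)) (Sum.inr (b0 :: t0, j1)) =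
      tp g g (t0, j0) (b0 :: t0, j1) := rfl
    have e' : WX f f (Sum.inr (s, i)) (Sum.inr (u, l)) = tp f f (s, i) (u, l) := rfl
    rw [e, e'] at h1
    linarith [h1.2]
  rw [tp_succ (by simp only; omega)] at w4
  have w5 : dd f f s u.tail < 22 * μ := by
    have := le_max_left (dd f f (s, i).1 (u, l).1.tail) (mx (s, i) (u, l))
    simp only at this w4
    linarith
  obtain ⟨u0, u', rfl⟩ : ∃ u0 u', u = u0 :: u' := by
    rcases u with _ | ⟨u0, u'⟩
    · simp at hu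
    · exact ⟨u0, u', rfl⟩
  simp only [List.tail_cons] at w5
  obtain ⟨a, ha⟩ := (rel_of_dd w5 (by linarith)).cons' u0
  obtain ⟨i', hi'⟩ := xx_dense (a :: s) (xx (u0 :: u', l)) hμ0
  obtain ⟨j', hj'⟩ := xx_dense (b :: t) (xx (b0 :: t0, j1)) hμ0
  refine ⟨a, i', j', ?_⟩
  have w6 : dist (pp f (Sum.inr (a :: s, i'))) (pp f (Sum.inr (u0 :: u', l))) ≤ 22 / 10 * μ := by
    rw [pp_dist]
    show tp f f (a :: s, i') (u0 :: u', l) ≤ _
    rw [tp_same (by simp only; exact ha.length)]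
    have e1 := dd_le ha (by linarith)
    have e2 : mx (a :: s, i') (u0 :: u', l) < μ := mx_lt hi'
    have := max_le e1 (show mx (a :: s, i') (u0 :: u', l) ≤ 22 * μ by linarith)
    simp only
    linarith
  have w7 : dist (pp g (Sum.inr (b0 :: t0, j1))) (pp g (Sum.inr (b :: t, j'))) ≤ η + μ := by
    rw [dist_comm, pp_dist]
    show tp g g (b :: t, j') (b0 :: t0, j1) ≤ _
    rw [tp_same (by simp only; exact hb0.length)]
    have hpos : 0 ≤ 10 * (η + μ) := by
      have := dd_nonneg g g t t0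
      linarith
    have e1 := dd_le hb0 hpos
    have e2 : mx (b :: t, j') (b0 :: t0, j1) < μ := mx_lt hj'
    have hη0 : 0 ≤ η := by
      have : 0 ≤ dist (H (pp f (Sum.inr (s, i)))) (pp g (Sum.inr (t, j))) := dist_nonneg
      exact this.trans h.le
    have := max_le e1 (show mx (b :: t, j') (b0 :: t0, j1) ≤ 10 * (η + μ) by linarith)
    simp only
    linarith
  show dist (H (pp f (Sum.inr (a :: s, i')))) (pp g (Sum.inr (b :: t, j'))) < η + δ
  have w8 := dist_triangle4 (H (pp f (Sum.inr (a :: s, i')))) (H (pp f (Sum.inr (u0 :: u', l))))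
    (pp g (Sum.inr (b0 :: t0, j1))) (pp g (Sum.inr (b :: t, j')))
  rw [H.isometry.dist_eq] at w8
  have w9 : dist (H (pp f (Sum.inr (u0 :: u', l)))) (pp g (Sum.inr (b0 :: t0, j1))) < μ := hx
  linarith

theorem step' (H : MM (theta f) ≃ᵢ MM (theta g)) {s t : List ℕ} {i j : ℕ} {η : ℝ}
    (hη : η ≤ 1 / 50) (h : NN H η (Sum.inr (s, i)) (Sum.inr (t, j))) (a : ℕ) {δ : ℝ}
    (hδ : 0 < δ) : ∃ b i' j', NN H (η + δ) (Sum.inr (a :: s, i')) (Sum.inr (b :: t, j')) := by
  obtain ⟨b, j', i', h'⟩ := step H.symm hη ((NN_symm H).2 h) a hδ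
  exact ⟨b, i', j', (NN_symm H).1 h'⟩

theorem bck (H : MM (theta f) ≃ᵢ MM (theta g)) : rhoGH f g = 0 := by
  rw [gh_zero]
  intro ε hε
  set κ : ℝ := min (ε / 10) (1 / 50) with hκ
  have hκ0 : 0 < κ := lt_min (by linarith) (by norm_num)
  have hκ1 : κ ≤ ε / 10 := min_le_left _ _
  have hκ2 : κ ≤ 1 / 50 := min_le_right _ _
  let er : ℕ → ℝ := fun n => κ * (1 - (1 / 2) ^ (n + 1))
  have er_le : ∀ n, er n ≤ κ := by
    intro n
    have h1 : (0 : ℝ) ≤ (1 / 2) ^ (n + 1) := by positivity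
    show κ * (1 - (1 / 2) ^ (n + 1)) ≤ κ
    nlinarith
  have er_succ : ∀ n, er (n + 1) = er n + κ * (1 / 2) ^ (n + 2) := by
    intro n
    show κ * (1 - (1 / 2) ^ (n + 1 + 1)) = κ * (1 - (1 / 2) ^ (n + 1)) + κ * (1 / 2) ^ (n + 2)
    ring
  let P : List (ℕ × ℕ) → Prop := fun L => ∃ i j,
    NN H (er L.length) (Sum.inr (L.map Prod.fst, i)) (Sum.inr (L.map Prod.snd, j))
  have h0 : P [] := by
    have hp : 0 < er 0 := by
      show 0 < κ * (1 - (1 / 2) ^ (0 + 1))
      norm_num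
      exact hκ0
    obtain ⟨y, hy⟩ := NN_total H (Sum.inr (([] : List ℕ), 0)) hp
    have hle : er 0 ≤ 1 / 50 := (er_le 0).trans hκ2
    obtain ⟨⟨t, j⟩, rfl⟩ := NN_inr H hle hy
    have hl := NN_len H hle hy
    simp only [List.length_nil] at hl
    have ht : t = [] := List.length_eq_zero_iff.1 hl.symm
    subst ht
    exact ⟨0, j, hy⟩
  obtain ⟨R, -, hR1, hR2, hR3⟩ := bf P id id [] h0
    (by
      rintro L ⟨i, j, hL⟩ a
      obtain ⟨b, i', j', h'⟩ := step' H ((er_le _).trans hκ2) hL a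
        (show 0 < κ * (1 / 2) ^ (L.length + 2) by positivity)
      rw [← er_succ] at h'
      exact ⟨b, i', j', h'⟩)
    (by
      rintro L ⟨i, j, hL⟩ b
      obtain ⟨a, i', j', h'⟩ := step H ((er_le _).trans hκ2) hL b
        (show 0 < κ * (1 / 2) ^ (L.length + 2) by positivity)
      rw [← er_succ] at h'
      exact ⟨a, i', j', h'⟩)
  refine ⟨fun n m => (n, m) ∈ R, ⟨hR1, hR2, ?_⟩, List.Forall₂.nil⟩
  intro n m n' m' h1 h2
  obtain ⟨L, ⟨i, j, hL⟩, h3, h4⟩ := hR3 _ h1 _ h2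
  obtain ⟨k, hk, hk'⟩ := List.getElem_of_mem h3
  obtain ⟨k', hk1, hk1'⟩ := List.getElem_of_mem h4
  have g1 : (L.map Prod.fst).getD k 0 = n := by
    rw [List.getD_eq_getElem _ _ (by simpa using hk), List.getElem_map, hk']
  have g2 : (L.map Prod.snd).getD k 0 = m := by
    rw [List.getD_eq_getElem _ _ (by simpa using hk), List.getElem_map, hk']
  have g3 : (L.map Prod.fst).getD k' 0 = n' := by
    rw [List.getD_eq_getElem _ _ (by simpa using hk1), List.getElem_map, hk1']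
  have g4 : (L.map Prod.snd).getD k' 0 = m' := by
    rw [List.getD_eq_getElem _ _ (by simpa using hk1), List.getElem_map, hk1']
  have hv : ∀ q : ℚ, |kp (|f.1 n n' - q|) - kp (|g.1 m m' - q|)| ≤ 10 * er L.length := by
    intro q
    have hq := NN_vl H hL (Sum.inl (k, k', q))
    simp only [vl', List.length_map] at hq
    rw [if_pos ⟨hk, hk1⟩, if_pos ⟨hk, hk1⟩, g1, g2, g3, g4] at hq
    exact hq
  have hle := er_le L.length
  have := kp_dec (show 10 * er L.length < 1 by linarith) hv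
  linarith

end Pool.Agent.H655.GE
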