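import Pool.Agent.H655.GE.Corr

/-! The code of the type spaces of a metric: a metric on a countable set. -/

namespace Pool.Agent.H655.GE

open Set Pool.Agent.H655.UR
open scoped ENNReal

/-! ### Positions -/

theorem qq_exists : ∃ q : ℕ → ℚ, Function.Bijective q := by
  obtain ⟨e⟩ : Nonempty (ℕ ≃ ℚ) := ⟨(Denumerable.eqv ℚ).symm⟩
  exact ⟨e, e.bijective⟩

/-- An enumeration of the rationals. -/
noncomputable def qq : ℕ → ℚ := qq_exists.choose

theorem qq_bij : Function.Bijective qq := qq_exists.choose_spec

/-- The positions of the copies of a tuple. -/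
noncomputable def xx (p : List ℕ × ℕ) : ℝ := (qq p.2 : ℝ) + √2 / ((Encodable.encode p.1 : ℝ) + 1)

theorem xx_inj {p q : List ℕ × ℕ} (h : xx p = xx q) : p = q := by
  unfold xx at h
  by_cases he : Encodable.encode p.1 = Encodable.encode q.1
  · rw [he] at h
    have h1 : (qq p.2 : ℝ) = qq q.2 := by linarith
    have h2 : qq p.2 = qq q.2 := by exact_mod_cast h1
    exact Prod.ext (Encodable.encode_injective he) (qq_bij.1 h2)
  · exfalso
    have h0 : (1 / ((Encodable.encode p.1 : ℚ) + 1) - 1 / ((Encodable.encode q.1 : ℚ) + 1)) ≠ 0 := by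
      intro h0
      have h1 : ((Encodable.encode p.1 : ℚ) + 1) = ((Encodable.encode q.1 : ℚ) + 1) := by
        have a1 : ((Encodable.encode p.1 : ℚ) + 1) ≠ 0 := by positivity
        have a2 : ((Encodable.encode q.1 : ℚ) + 1) ≠ 0 := by positivity
        field_simp at h0
        linarith
      have h2 : ((Encodable.encode p.1 : ℚ)) = (Encodable.encode q.1 : ℚ) := by linarith
      exact he (by exact_mod_cast h2)
    have h1 : √2 = (((qq q.2 - qq p.2) /
        (1 / ((Encodable.encode p.1 : ℚ) + 1) - 1 / ((Encodable.encode q.1 : ℚ) + 1)) : ℚ) : ℝ) := by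
      have h0' : (((1 / ((Encodable.encode p.1 : ℚ) + 1) -
          1 / ((Encodable.encode q.1 : ℚ) + 1)) : ℚ) : ℝ) ≠ 0 := by exact_mod_cast h0
      push_cast at h0' ⊢
      rw [eq_div_iff h0']
      have a3 : √2 * (1 / ((Encodable.encode p.1 : ℝ) + 1) - 1 / ((Encodable.encode q.1 : ℝ) + 1)) =
          √2 / ((Encodable.encode p.1 : ℝ) + 1) - √2 / ((Encodable.encode q.1 : ℝ) + 1) := by ring
      rw [a3]
      linarith
    exact irrational_sqrt_two ⟨_, h1.symm⟩

theorem xx_dense (s : List ℕ) (y : ℝ) {δ : ℝ} (hδ : 0 < δ) : ∃ i, |xx (s, i) - y| < δ := by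
  obtain ⟨q, h1, h2⟩ := exists_rat_btwn
    (show y - √2 / ((Encodable.encode s : ℝ) + 1) - δ <
      y - √2 / ((Encodable.encode s : ℝ) + 1) + δ by linarith)
  obtain ⟨i, hi⟩ := qq_bij.2 q
  refine ⟨i, ?_⟩
  unfold xx
  simp only [hi]
  rw [abs_lt]
  constructor <;> linarith

/-- The truncated difference of positions. -/
noncomputable def mx (p q : List ℕ × ℕ) : ℝ := kp |xx p - xx q|

theorem mx_nonneg (p q : List ℕ × ℕ) : 0 ≤ mx p q := kp_nonneg (abs_nonneg _)

theorem mx_le_one (p q : List ℕ × ℕ) : mx p q ≤ 1 := kp_le_one _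

theorem mx_symm (p q : List ℕ × ℕ) : mx p q = mx q p := by
  unfold mx
  rw [abs_sub_comm]

theorem mx_tri (p q r : List ℕ × ℕ) : mx p r ≤ mx p q + mx q r := by
  unfold mx kp
  have h1 := abs_sub_le (xx p) (xx q) (xx r)
  have h2 := abs_nonneg (xx p - xx q)
  have h3 := abs_nonneg (xx q - xx r)
  rcases le_total |xx p - xx q| 1 with h4 | h4
  · rcases le_total |xx q - xx r| 1 with h5 | h5
    · rw [min_eq_left h4, min_eq_left h5]
      exact (min_le_left _ _).trans h1
    · rw [min_eq_left h4, min_eq_right h5]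
      exact (min_le_right _ _).trans (by linarith)
  · rw [min_eq_right h4]
    have : 0 ≤ min |xx q - xx r| 1 := le_min h3 zero_le_one
    exact (min_le_right _ _).trans (by linarith)

theorem mx_self (p : List ℕ × ℕ) : mx p p = 0 := by
  unfold mx kp
  simp

theorem mx_pos {p q : List ℕ × ℕ} (h : p ≠ q) : 0 < mx p q := by
  unfold mx kp
  have h1 : xx p - xx q ≠ 0 := fun e => h (xx_inj (by linarith))
  exact lt_min (abs_pos.2 h1) one_pos

theorem mx_lt {p q : List ℕ × ℕ} {δ : ℝ} (h : |xx p - xx q| < δ) : mx p q < δ :=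
  (min_le_left _ _).trans_lt h

/-! ### Labels -/

/-- Labels: coordinates and lengths. -/
abbrev Lb' : Type := (ℕ × ℕ × ℚ) ⊕ ℕ

/-- The value of a label at a tuple. -/
noncomputable def vl' (f : Met) : Lb' → List ℕ → ℝ
  | Sum.inl t, s => if t.1 < s.length ∧ t.2.1 < s.length then
      kp |f.1 (s.getD t.1 0) (s.getD t.2.1 0) - t.2.2| else 0
  | Sum.inr n, s => if s.length = n then 1 else 0

theorem vl'_mem (f : Met) (l : Lb') (s : List ℕ) : 0 ≤ vl' f l s ∧ vl' f l s ≤ 1 := by
  rcases l with t | n
  · simp only [vl']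
    split_ifs
    · exact ⟨kp_nonneg (abs_nonneg _), kp_le_one _⟩
    · exact ⟨le_rfl, zero_le_one⟩
  · simp only [vl']
    split_ifs
    · exact ⟨zero_le_one, le_rfl⟩
    · exact ⟨le_rfl, zero_le_one⟩

theorem forall₂_getD {R : ℕ → ℕ → Prop} {s t : List ℕ} (h : List.Forall₂ R s t) {i : ℕ}
    (hi : i < s.length) : R (s.getD i 0) (t.getD i 0) := by
  induction h generalizing i with
  | nil => exact absurd hi (by simp)
  | cons h1 _ ih =>
    rcases i with _ | i
    · simpa using h1
    · simp only [List.getD_cons_succ]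
      exact ih (by simpa using hi)

theorem vl'_rel {f g : Met} {s t : List ℕ} {ε : ℝ} (h : Rel f g s t ε) (l : Lb') (hε : 0 ≤ ε) :
    |vl' f l s - vl' g l t| ≤ ε := by
  have hl := h.length
  rcases l with c | n
  · simp only [vl']
    rw [← hl]
    split_ifs with hc
    · obtain ⟨R, h1, h2⟩ := h
      have e := h1.2.2 _ _ _ _ (forall₂_getD h2 hc.1) (forall₂_getD h2 hc.2)
      refine (kp_lip _ _).trans ?_
      refine (abs_abs_sub_abs_le_abs_sub _ _).trans ?_
      have e2 : f.1 (s.getD c.1 0) (s.getD c.2.1 0) - (c.2.2 : ℝ) -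
          (g.1 (t.getD c.1 0) (t.getD c.2.1 0) - (c.2.2 : ℝ)) =
          f.1 (s.getD c.1 0) (s.getD c.2.1 0) - g.1 (t.getD c.1 0) (t.getD c.2.1 0) := by ring
      rw [e2]
      exact e
    · simpa using hε
  · simp only [vl']
    rw [← hl]
    simpa using hε

theorem vl'_lip {f g : Met} {s t : List ℕ} (l : Lb') :
    |vl' f l s - vl' g l t| ≤ dd f g s t := by
  by_cases hc : 1 ≤ dd f g s t
  · have h1 := vl'_mem f l s
    have h2 := vl'_mem g l t
    have h3 : |vl' f l s - vl' g l t| ≤ 1 := by
      rw [abs_le]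
      constructor <;> linarith
    linarith
  push Not at hc
  apply le_of_forall_pos_le_add
  intro κ hκ
  by_cases h1 : dd f g s t + κ ≤ 1
  · have r := rel_of_dd (f := f) (g := g) (s := s) (t := t) (ε := dd f g s t + κ) (by linarith) h1
    have := dd_nonneg f g s t
    exact vl'_rel r l (by linarith)
  · have h1' := vl'_mem f l s
    have h2 := vl'_mem g l t
    rw [abs_le]
    constructor <;> linarith

theorem lb'_exists : ∃ lab : ℕ → Lb', Function.Surjective lab := exists_surjective_nat Lb'

/-- Enumeration of the labels. -/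
noncomputable def lab' : ℕ → Lb' := lb'_exists.choose

theorem lab'_surj : Function.Surjective lab' := lb'_exists.choose_spec

/-! ### Tuples -/

/-- The distance of tuples of the same or of neighbouring lengths. -/
noncomputable def EE (f g : Met) (s t : List ℕ) : ℝ :=
  if s.length = t.length then dd f g s t
  else if t.length = s.length + 1 then dd f g s t.tail
  else if s.length = t.length + 1 then dd f g s.tail t
  else 1

theorem EE_nonneg (f g : Met) (s t : List ℕ) : 0 ≤ EE f g s t := by
  unfold EE
  split_ifs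
  · exact dd_nonneg _ _ _ _
  · exact dd_nonneg _ _ _ _
  · exact dd_nonneg _ _ _ _
  · exact zero_le_one

theorem EE_le_one (f g : Met) (s t : List ℕ) : EE f g s t ≤ 1 := by
  unfold EE
  split_ifs
  · exact dd_le_one _ _ _ _
  · exact dd_le_one _ _ _ _
  · exact dd_le_one _ _ _ _
  · exact le_rfl

theorem EE_symm (f g : Met) (s t : List ℕ) : EE f g s t = EE g f t s := by
  unfold EE
  split_ifs <;> first | rfl | exact dd_symm _ _ _ _ | (exfalso; omega)

theorem EE_tri (f g h : Met) {s t : List ℕ} (hst : s.length = t.length) (u : List ℕ) :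
    EE f h s u ≤ dd f g s t + EE g h t u := by
  unfold EE
  rw [hst]
  split_ifs
  · exact dd_tri _ _ _ _ _ _
  · exact dd_tri _ _ _ _ _ _
  · have h1 := dd_tri f g h s.tail t.tail u
    have h2 := dd_tail f g s t
    linarith
  · have := dd_nonneg f g s t
    linarith

/-- The offset. -/
noncomputable def of (s t : List ℕ) : ℝ := if s.length = t.length then 0 else 7 / 10

/-- The points of the code. -/
abbrev TT' : Type := ℕ ⊕ (List ℕ × ℕ)

/-- The distances of two tuple points. -/
noncomputable def tp (f g : Met) (p q : List ℕ × ℕ) : ℝ :=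
  of p.1 q.1 + (1 / 10) * max (EE f g p.1 q.1) (mx p q)

/-- The distances in the code and between two codes. -/
noncomputable def WX (f g : Met) : TT' → TT' → ℝ
  | Sum.inl m, Sum.inl m' => if m = m' then 0 else if m + 1 = m' ∨ m' + 1 = m then 9 / 10 else 1
  | Sum.inl m, Sum.inr q => 1 / 2 + (1 / 10) * vl' g (lab' m) q.1
  | Sum.inr p, Sum.inl m => 1 / 2 + (1 / 10) * vl' f (lab' m) p.1
  | Sum.inr p, Sum.inr q => tp f g p q

theorem tp_nonneg (f g : Met) (p q : List ℕ × ℕ) : 0 ≤ tp f g p q := by
  unfold tp of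
  have := le_max_of_le_left (c := mx p q) (EE_nonneg f g p.1 q.1)
  split_ifs <;> linarith

theorem tp_le (f g : Met) (p q : List ℕ × ℕ) : tp f g p q ≤ 8 / 10 := by
  unfold tp of
  have := max_le (EE_le_one f g p.1 q.1) (mx_le_one p q)
  split_ifs <;> linarith

theorem tp_symm (f g : Met) (p q : List ℕ × ℕ) : tp f g p q = tp g f q p := by
  unfold tp of
  rw [EE_symm, mx_symm]
  congr 1
  by_cases h : p.1.length = q.1.length
  · rw [if_pos h, if_pos h.symm]
  · rw [if_neg h, if_neg (fun e => h e.symm)]

theorem tp_tri1 (f g h : Met) {p q : List ℕ × ℕ} (hpq : p.1.length = q.1.length)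
    (r : List ℕ × ℕ) : tp f h p r ≤ tp f g p q + tp g h q r := by
  unfold tp
  have h1 : of p.1 q.1 = 0 := if_pos hpq
  have h2 : of p.1 r.1 = of q.1 r.1 := by
    unfold of
    rw [hpq]
  rw [h1, h2]
  have h3 := EE_tri f g h hpq r.1
  have h4 := mx_tri p q r
  have h5 : EE f g p.1 q.1 = dd f g p.1 q.1 := if_pos hpq
  rw [← h5] at h3
  have h6 : max (EE f h p.1 r.1) (mx p r) ≤
      max (EE f g p.1 q.1) (mx p q) + max (EE g h q.1 r.1) (mx q r) := by
    apply max_le
    · exact h3.trans (add_le_add (le_max_left _ _) (le_max_left _ _))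
    · exact h4.trans (add_le_add (le_max_right _ _) (le_max_right _ _))
  linarith

theorem tp_tri (f g h : Met) (p q r : List ℕ × ℕ) : tp f h p r ≤ tp f g p q + tp g h q r := by
  by_cases h1 : p.1.length = q.1.length
  · exact tp_tri1 f g h h1 r
  by_cases h2 : q.1.length = r.1.length
  · rw [tp_symm f h, tp_symm f g, tp_symm g h, add_comm]
    exact tp_tri1 h g f h2.symm p
  · have h3 := tp_le f h p r
    have h4 : 7 / 10 ≤ tp f g p q := by
      unfold tp of
      rw [if_neg h1]
      have := le_max_of_le_left (c := mx p q) (EE_nonneg f g p.1 q.1)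
      linarith
    have h5 : 7 / 10 ≤ tp g h q r := by
      unfold tp of
      rw [if_neg h2]
      have := le_max_of_le_left (c := mx q r) (EE_nonneg g h q.1 r.1)
      linarith
    linarith

theorem tp_vl (f g : Met) (p q : List ℕ × ℕ) (l : Lb') :
    (1 / 10) * |vl' f l p.1 - vl' g l q.1| ≤ tp f g p q := by
  by_cases h : p.1.length = q.1.length
  · have h1 : EE f g p.1 q.1 = dd f g p.1 q.1 := if_pos h
    have h2 := vl'_lip (f := f) (g := g) (s := p.1) (t := q.1) l
    have h3 : of p.1 q.1 = 0 := if_pos h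
    have h4 := le_max_left (EE f g p.1 q.1) (mx p q)
    unfold tp
    rw [h3]
    linarith
  · have h1 := vl'_mem f l p.1
    have h2 := vl'_mem g l q.1
    have h3 : |vl' f l p.1 - vl' g l q.1| ≤ 1 := by
      rw [abs_le]
      constructor <;> linarith
    have h4 : 7 / 10 ≤ tp f g p q := by
      unfold tp of
      rw [if_neg h]
      have := le_max_of_le_left (c := mx p q) (EE_nonneg f g p.1 q.1)
      linarith
    linarith

theorem WX_symm (f g : Met) (x y : TT') : WX f g x y = WX g f y x := by
  rcases x with m | p <;> rcases y with m' | q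
  · simp only [WX]
    split_ifs <;> first | rfl | (exfalso; omega)
  · rfl
  · rfl
  · exact tp_symm f g p q

theorem WX_self (f : Met) (x : TT') : WX f f x x = 0 := by
  rcases x with m | p
  · simp [WX]
  · show tp f f p p = 0
    unfold tp of EE
    simp [dd_self, mx_self]

theorem lb_bd (m m' : ℕ) :
    0 ≤ (if m = m' then (0 : ℝ) else if m + 1 = m' ∨ m' + 1 = m then 9 / 10 else 1) ∧
    (if m = m' then (0 : ℝ) else if m + 1 = m' ∨ m' + 1 = m then 9 / 10 else 1) ≤ 1 ∧
    (m ≠ m' → 9 / 10 ≤ (if m = m' then (0 : ℝ) else if m + 1 = m' ∨ m' + 1 = m then 9 / 10 else 1)) := by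
  refine ⟨?_, ?_, ?_⟩
  · split_ifs <;> norm_num
  · split_ifs <;> norm_num
  · intro h
    rw [if_neg h]
    split_ifs <;> norm_num

theorem WX_pos (f : Met) {x y : TT'} (h : x ≠ y) : 0 < WX f f x y := by
  rcases x with m | p <;> rcases y with m' | q
  · have h1 : m ≠ m' := fun e => h (by rw [e])
    have := (lb_bd m m').2.2 h1
    simp only [WX]
    linarith
  · have := (vl'_mem f (lab' m) q.1).1
    simp only [WX]
    linarith
  · have := (vl'_mem f (lab' m') p.1).1
    simp only [WX]
    linarith
  · have h1 : p ≠ q := fun e => h (by rw [e])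
    have h2 := mx_pos h1
    show 0 < tp f f p q
    unfold tp of
    have := le_max_right (EE f f p.1 q.1) (mx p q)
    split_ifs <;> linarith

theorem WX_tri (f g h : Met) (x y z : TT') : WX f h x z ≤ WX f g x y + WX g h y z := by
  rcases x with m | p <;> rcases y with m' | q <;> rcases z with m'' | r
  · simp only [WX]
    have h1 := lb_bd m m'
    have h2 := lb_bd m' m''
    have h3 := lb_bd m m''
    by_cases e1 : m = m'
    · subst e1
      simp only [if_true]
      linarith
    · by_cases e2 : m' = m''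
      · subst e2
        simp only [if_true]
        linarith
      · have := h1.2.2 e1
        have := h2.2.2 e2
        linarith [h3.2.1]
  · simp only [WX]
    have h1 := lb_bd m m'
    have h2 := vl'_mem h (lab' m) r.1
    have h3 := vl'_mem h (lab' m') r.1
    by_cases e1 : m = m'
    · subst e1
      simp only [if_true]
      linarith
    · have := h1.2.2 e1
      linarith
  · simp only [WX]
    have h1 := lb_bd m m''
    have h2 := vl'_mem g (lab' m) q.1
    have h3 := vl'_mem g (lab' m'') q.1
    linarith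
  · simp only [WX]
    have h1 := tp_vl g h q r (lab' m)
    have h2 := abs_le.1 (le_refl |vl' g (lab' m) q.1 - vl' h (lab' m) r.1|)
    linarith
  · simp only [WX]
    have h1 := lb_bd m' m''
    have h2 := vl'_mem f (lab' m') p.1
    have h3 := vl'_mem f (lab' m'') p.1
    by_cases e1 : m' = m''
    · subst e1
      simp only [if_true]
      linarith
    · have := h1.2.2 e1
      linarith
  · simp only [WX]
    have h1 := tp_le f h p r
    have h2 := vl'_mem f (lab' m') p.1
    have h3 := vl'_mem h (lab' m') r.1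
    linarith
  · simp only [WX]
    have h1 := tp_vl f g p q (lab' m'')
    have h2 := abs_le.1 (le_refl |vl' f (lab' m'') p.1 - vl' g (lab' m'') q.1|)
    linarith
  · exact tp_tri f g h p q r

theorem tt'_exists : Nonempty (TT' ≃ ℕ) := nonempty_equiv_of_countable

/-- Enumeration of the points of the code. -/
noncomputable def enc' : TT' ≃ ℕ := tt'_exists.some

/-- The code: the metric on `ℕ` of the type spaces of `f`. -/
noncomputable def theta (f : Met) : Met :=
  ⟨fun n m => WX f f (enc'.symm n) (enc'.symm m), by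
    refine ⟨fun n m => ?_, fun n m => WX_symm _ _ _ _, fun n m k => WX_tri _ _ _ _ _ _⟩
    by_cases h : n = m
    · subst h
      simp [WX_self]
    · have h' : enc'.symm n ≠ enc'.symm m := fun e => h (enc'.symm.injective e)
      have := WX_pos f h'
      constructor
      · intro h0
        linarith
      · intro h0
        exact absurd h0 h⟩

/-- The points of the completed code. -/
noncomputable def pp (f : Met) (x : TT') : MM (theta f) := inc (theta f) (enc' x)

theorem pp_dist (f : Met) (x y : TT') : dist (pp f x) (pp f y) = WX f f x y := by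
  unfold pp
  rw [inc_dist]
  show WX f f (enc'.symm (enc' x)) (enc'.symm (enc' y)) = _
  rw [Equiv.symm_apply_apply, Equiv.symm_apply_apply]

theorem pp_dense (f : Met) : DenseRange (pp f) := by
  have h := inc_dense (theta f)
  have h2 : range (inc (theta f)) ⊆ range (pp f) := by
    rintro _ ⟨n, rfl⟩
    exact ⟨enc'.symm n, by simp [pp]⟩
  exact h.mono h2

end Pool.Agent.H655.GE
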