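import Pool.Agent.H655.UR.Back

/-! Correspondences between metrics on `ℕ` and the distance of tuples. -/

namespace Pool.Agent.H655.GE

open Set Pool.Agent.H655.UR
open scoped ENNReal

/-- `R` is a correspondence between `f` and `g` of distortion at most `ε`. -/
def Cor (f g : Met) (R : ℕ → ℕ → Prop) (ε : ℝ) : Prop :=
  (∀ n, ∃ m, R n m) ∧ (∀ m, ∃ n, R n m) ∧
    ∀ n m n' m', R n m → R n' m' → |f.1 n n' - g.1 m m'| ≤ ε

/-- A correspondence of distortion at most `ε` matches the tuples `s` and `t`. -/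
def Rel (f g : Met) (s t : List ℕ) (ε : ℝ) : Prop :=
  ∃ R : ℕ → ℕ → Prop, Cor f g R ε ∧ List.Forall₂ R s t

theorem Cor.mono {f g : Met} {R : ℕ → ℕ → Prop} {ε ε' : ℝ} (h : Cor f g R ε) (he : ε ≤ ε') :
    Cor f g R ε' :=
  ⟨h.1, h.2.1, fun n m n' m' h1 h2 => (h.2.2 n m n' m' h1 h2).trans he⟩

theorem Rel.mono {f g : Met} {s t : List ℕ} {ε ε' : ℝ} (h : Rel f g s t ε) (he : ε ≤ ε') :
    Rel f g s t ε' := by
  obtain ⟨R, h1, h2⟩ := h
  exact ⟨R, h1.mono he, h2⟩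

theorem Rel.refl (f : Met) (s : List ℕ) : Rel f f s s 0 := by
  refine ⟨fun n m => n = m, ⟨fun n => ⟨n, rfl⟩, fun n => ⟨n, rfl⟩, ?_⟩, ?_⟩
  · rintro n m n' m' rfl rfl
    simp
  · exact List.forall₂_same.2 fun _ _ => rfl

theorem Rel.symm {f g : Met} {s t : List ℕ} {ε : ℝ} (h : Rel f g s t ε) : Rel g f t s ε := by
  obtain ⟨R, h1, h2⟩ := h
  refine ⟨fun n m => R m n, ⟨h1.2.1, h1.1, ?_⟩, ?_⟩
  · intro n m n' m' h3 h4
    rw [abs_sub_comm]
    exact h1.2.2 _ _ _ _ h3 h4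
  · exact h2.flip

theorem forall₂_comp {R S : ℕ → ℕ → Prop} {s t u : List ℕ} (h1 : List.Forall₂ R s t)
    (h2 : List.Forall₂ S t u) : List.Forall₂ (fun n l => ∃ m, R n m ∧ S m l) s u := by
  induction h1 generalizing u with
  | nil =>
    cases h2
    exact List.Forall₂.nil
  | cons h _ ih =>
    cases h2 with
    | cons h' h'' => exact List.Forall₂.cons ⟨_, h, h'⟩ (ih h'')

theorem Rel.trans {f g h : Met} {s t u : List ℕ} {ε δ : ℝ} (h1 : Rel f g s t ε)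
    (h2 : Rel g h t u δ) : Rel f h s u (ε + δ) := by
  obtain ⟨R, h3, h4⟩ := h1
  obtain ⟨S, h5, h6⟩ := h2
  refine ⟨fun n l => ∃ m, R n m ∧ S m l, ⟨?_, ?_, ?_⟩, forall₂_comp h4 h6⟩
  · intro n
    obtain ⟨m, hm⟩ := h3.1 n
    obtain ⟨l, hl⟩ := h5.1 m
    exact ⟨l, m, hm, hl⟩
  · intro l
    obtain ⟨m, hm⟩ := h5.2.1 l
    obtain ⟨n, hn⟩ := h3.2.1 m
    exact ⟨n, m, hn, hm⟩
  · rintro n l n' l' ⟨m, a1, a2⟩ ⟨m', b1, b2⟩
    have e1 := h3.2.2 _ _ _ _ a1 b1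
    have e2 := h5.2.2 _ _ _ _ a2 b2
    have e3 := abs_sub_le (f.1 n n') (g.1 m m') (h.1 l l')
    linarith

theorem Rel.tail {f g : Met} {s t : List ℕ} {ε : ℝ} (h : Rel f g s t ε) :
    Rel f g s.tail t.tail ε := by
  obtain ⟨R, h1, h2⟩ := h
  refine ⟨R, h1, ?_⟩
  cases h2 with
  | nil => exact List.Forall₂.nil
  | cons h h' => exact h'

theorem Rel.length {f g : Met} {s t : List ℕ} {ε : ℝ} (h : Rel f g s t ε) :
    s.length = t.length := by
  obtain ⟨R, h1, h2⟩ := h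
  exact h2.length_eq

theorem Rel.cons {f g : Met} {s t : List ℕ} {ε : ℝ} (h : Rel f g s t ε) (a : ℕ) :
    ∃ b, Rel f g (a :: s) (b :: t) ε := by
  obtain ⟨R, h1, h2⟩ := h
  obtain ⟨b, hb⟩ := h1.1 a
  exact ⟨b, R, h1, List.Forall₂.cons hb h2⟩

theorem Rel.cons' {f g : Met} {s t : List ℕ} {ε : ℝ} (h : Rel f g s t ε) (b : ℕ) :
    ∃ a, Rel f g (a :: s) (b :: t) ε := by
  obtain ⟨a, ha⟩ := h.symm.cons b
  exact ⟨a, ha.symm⟩

/-- Approximately isomorphic metrics. -/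
theorem gh_zero {f g : Met} : rhoGH f g = 0 ↔ ∀ ε : ℝ, 0 < ε → Rel f g [] [] ε := by
  constructor
  · intro h ε hε
    have h1 : rhoGH f g < ENNReal.ofReal (ε / 2) := by
      rw [h]
      exact ENNReal.ofReal_pos.2 (by linarith)
    obtain ⟨R, h2, h3, h4⟩ := rel_of_gh h1
    refine ⟨R, ⟨h2, h3, ?_⟩, List.Forall₂.nil⟩
    intro n m n' m' h5 h6
    have := h4 n m n' m' h5 h6
    linarith
  · intro h
    have key : ∀ δ : ℝ, 0 < δ → rhoGH f g ≤ ENNReal.ofReal δ := by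
      intro δ hδ
      obtain ⟨R, h1, -⟩ := h (2 * δ) (by linarith)
      obtain ⟨m0, hm0⟩ := h1.1 0
      haveI : Nonempty {p : ℕ × ℕ // R p.1 p.2} := ⟨⟨(0, m0), hm0⟩⟩
      refine gh_of_maps hδ (fun p : {p : ℕ × ℕ // R p.1 p.2} => p.1.1) (fun p => p.1.2) ?_ ?_ ?_
      · intro n
        obtain ⟨m, hm⟩ := h1.1 n
        exact ⟨⟨(n, m), hm⟩, rfl⟩
      · intro m
        obtain ⟨n, hn⟩ := h1.2.1 m
        exact ⟨⟨(n, m), hn⟩, rfl⟩
      · rintro ⟨p, hp⟩ ⟨q, hq⟩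
        exact h1.2.2 _ _ _ _ hp hq
    by_contra hne
    have hpos : 0 < rhoGH f g := pos_iff_ne_zero.2 hne
    have h1 := key 1 one_pos
    have hfin : rhoGH f g ≠ ⊤ := ne_top_of_le_ne_top ENNReal.ofReal_ne_top h1
    have hp : 0 < (rhoGH f g).toReal := ENNReal.toReal_pos hne hfin
    have h2 := key ((rhoGH f g).toReal / 2) (by linarith)
    rw [← ENNReal.ofReal_toReal hfin] at h2
    rw [ENNReal.toReal_ofReal hp.le, ENNReal.ofReal_le_ofReal_iff (by linarith)] at h2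
    linarith

/-- The distance of tuples. -/
noncomputable def dd (f g : Met) (s t : List ℕ) : ℝ :=
  sInf {ε : ℝ | 0 ≤ ε ∧ (Rel f g s t ε ∨ 1 ≤ ε)}

theorem dd_bdd (f g : Met) (s t : List ℕ) :
    BddBelow {ε : ℝ | 0 ≤ ε ∧ (Rel f g s t ε ∨ 1 ≤ ε)} := ⟨0, fun _ h => h.1⟩

theorem dd_ne (f g : Met) (s t : List ℕ) :
    {ε : ℝ | 0 ≤ ε ∧ (Rel f g s t ε ∨ 1 ≤ ε)}.Nonempty := ⟨1, zero_le_one, Or.inr le_rfl⟩

theorem dd_nonneg (f g : Met) (s t : List ℕ) : 0 ≤ dd f g s t :=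
  le_csInf (dd_ne f g s t) fun _ h => h.1

theorem dd_le_one (f g : Met) (s t : List ℕ) : dd f g s t ≤ 1 :=
  csInf_le (dd_bdd f g s t) ⟨zero_le_one, Or.inr le_rfl⟩

theorem dd_le {f g : Met} {s t : List ℕ} {ε : ℝ} (h : Rel f g s t ε) (hε : 0 ≤ ε) :
    dd f g s t ≤ ε :=
  csInf_le (dd_bdd f g s t) ⟨hε, Or.inl h⟩

theorem rel_of_dd {f g : Met} {s t : List ℕ} {ε : ℝ} (h : dd f g s t < ε) (hε : ε ≤ 1) :
    Rel f g s t ε := by
  obtain ⟨ε', h1, h2⟩ := (csInf_lt_iff (dd_bdd f g s t) (dd_ne f g s t)).1 h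
  rcases h1.2 with h3 | h3
  · exact h3.mono h2.le
  · linarith

theorem rel_of_dd' {f g : Met} {s t : List ℕ} {r : ℝ} (h : dd f g s t < r) (hr : r ≤ 1) :
    ∃ ε, 0 ≤ ε ∧ ε < r ∧ Rel f g s t ε := by
  obtain ⟨ε', h1, h2⟩ := (csInf_lt_iff (dd_bdd f g s t) (dd_ne f g s t)).1 h
  rcases h1.2 with h3 | h3
  · exact ⟨ε', h1.1, h2, h3⟩
  · linarith

theorem dd_self (f : Met) (s : List ℕ) : dd f f s s = 0 :=
  le_antisymm (dd_le (Rel.refl f s) le_rfl) (dd_nonneg _ _ _ _)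

theorem dd_symm (f g : Met) (s t : List ℕ) : dd f g s t = dd g f t s := by
  unfold dd
  congr 1
  ext ε
  constructor
  · rintro ⟨h1, h2 | h2⟩
    · exact ⟨h1, Or.inl h2.symm⟩
    · exact ⟨h1, Or.inr h2⟩
  · rintro ⟨h1, h2 | h2⟩
    · exact ⟨h1, Or.inl h2.symm⟩
    · exact ⟨h1, Or.inr h2⟩

theorem dd_tri (f g h : Met) (s t u : List ℕ) : dd f h s u ≤ dd f g s t + dd g h t u := by
  by_cases hc : 1 ≤ dd f g s t + dd g h t u
  · exact (dd_le_one _ _ _ _).trans hc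
  push Not at hc
  have n1 := dd_nonneg f g s t
  have n2 := dd_nonneg g h t u
  apply le_of_forall_pos_le_add
  intro κ hκ
  have hm : 0 < min (κ / 2) (1 - (dd f g s t + dd g h t u)) := lt_min (by linarith) (by linarith)
  set μ := min (κ / 2) (1 - (dd f g s t + dd g h t u)) with hμ
  have m1 : μ ≤ κ / 2 := min_le_left _ _
  have m2 : μ ≤ 1 - (dd f g s t + dd g h t u) := min_le_right _ _
  have r1 := rel_of_dd (f := f) (g := g) (s := s) (t := t) (ε := dd f g s t + μ) (by linarith)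
    (by linarith)
  have r2 := rel_of_dd (f := g) (g := h) (s := t) (t := u) (ε := dd g h t u + μ) (by linarith)
    (by linarith)
  have := dd_le (r1.trans r2) (by linarith)
  linarith

theorem dd_tail (f g : Met) (s t : List ℕ) : dd f g s.tail t.tail ≤ dd f g s t := by
  by_cases hc : 1 ≤ dd f g s t
  · exact (dd_le_one _ _ _ _).trans hc
  push Not at hc
  apply le_of_forall_pos_le_add
  intro κ hκ
  by_cases h1 : dd f g s t + κ ≤ 1
  · have r := rel_of_dd (f := f) (g := g) (s := s) (t := t) (ε := dd f g s t + κ) (by linarith) h1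
    have := dd_nonneg f g s t
    exact dd_le r.tail (by linarith)
  · have := dd_le_one f g s.tail t.tail
    linarith

end Pool.Agent.H655.GE
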