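import Pool.Agent.H655.GE.Code

/-! Metrics at Gromov–Hausdorff distance zero have isometric type spaces. -/

namespace Pool.Agent.H655.GE

open Set Filter Topology Pool.Agent.H655.UR
open scoped ENNReal

theorem rel_lift {f g : Met} {ε : ℝ} (h : Rel f g [] [] ε) (s : List ℕ) :
    ∃ t, Rel f g s t ε := by
  obtain ⟨R, h1, -⟩ := h
  choose b hb using h1.1
  refine ⟨s.map b, R, h1, ?_⟩
  induction s with
  | nil => exact List.Forall₂.nil
  | cons a s ih => exact List.Forall₂.cons (hb a) ih

/-- Approximation of the points of a code. -/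
theorem wx_apx {f g : Met} (h : ∀ ε : ℝ, 0 < ε → Rel f g [] [] ε) (x : TT') {δ : ℝ}
    (hδ : 0 < δ) : ∃ y, WX f g x y < δ := by
  rcases x with m | p
  · exact ⟨Sum.inl m, by simp only [WX, if_true]; exact hδ⟩
  · obtain ⟨t, ht⟩ := rel_lift (h δ hδ) p.1
    obtain ⟨j, hj⟩ := xx_dense t (xx p) hδ
    refine ⟨Sum.inr (t, j), ?_⟩
    show tp f g p (t, j) < δ
    unfold tp of
    have hl : p.1.length = t.length := ht.length
    have h1 : EE f g p.1 t = dd f g p.1 t := if_pos hl
    have h2 := dd_le ht hδ.le
    have h3 : mx p (t, j) < δ := mx_lt (by rw [abs_sub_comm]; exact hj)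
    rw [if_pos hl, h1]
    have h4 : max (dd f g p.1 t) (mx p (t, j)) ≤ δ := max_le h2 h3.le
    linarith

theorem fwd {f g : Met} (h : rhoGH f g = 0) : Nonempty (MM (theta f) ≃ᵢ MM (theta g)) := by
  have hfg := gh_zero.1 h
  have hgf : ∀ ε : ℝ, 0 < ε → Rel g f [] [] ε := fun ε hε => (hfg ε hε).symm
  have hpos : ∀ k : ℕ, (0 : ℝ) < 1 / ((k : ℝ) + 1) := fun k => by positivity
  choose y hy using fun (x : TT') (k : ℕ) => wx_apx hfg x (hpos k)
  have hlim : Tendsto (fun k : ℕ => 1 / ((k : ℝ) + 1)) atTop (𝓝 0) :=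
    tendsto_one_div_add_atTop_nhds_zero_nat
  have hcau : ∀ x, CauchySeq (fun k => pp g (y x k)) := by
    intro x
    refine cauchySeq_of_le_tendsto_0 (fun N => 2 * (1 / ((N : ℝ) + 1))) ?_ ?_
    · intro n m N hn hm
      rw [pp_dist]
      have h1 := WX_tri g f g (y x n) x (y x m)
      rw [WX_symm g f] at h1
      have h2 := hy x n
      have h3 := hy x m
      have h4 : 1 / ((n : ℝ) + 1) ≤ 1 / ((N : ℝ) + 1) := by
        apply one_div_le_one_div_of_le (by positivity)
        have : (N : ℝ) ≤ n := by exact_mod_cast hn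
        linarith
      have h5 : 1 / ((m : ℝ) + 1) ≤ 1 / ((N : ℝ) + 1) := by
        apply one_div_le_one_div_of_le (by positivity)
        have : (N : ℝ) ≤ m := by exact_mod_cast hm
        linarith
      linarith
    · have := hlim.const_mul 2
      simpa using this
  choose z hz using fun x => cauchySeq_tendsto_of_complete (hcau x)
  have hdist : ∀ x x', dist (pp f x) (pp f x') = dist (z x) (z x') := by
    intro x x'
    rw [pp_dist]
    have h1 : Tendsto (fun k => dist (pp g (y x k)) (pp g (y x' k))) atTop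
        (𝓝 (dist (z x) (z x'))) := (hz x).dist (hz x')
    have h2 : Tendsto (fun k => dist (pp g (y x k)) (pp g (y x' k))) atTop
        (𝓝 (WX f f x x')) := by
      rw [tendsto_iff_dist_tendsto_zero]
      refine squeeze_zero (fun k => dist_nonneg)
        (g := fun k : ℕ => 2 * (1 / ((k : ℝ) + 1))) ?_ ?_
      · intro k
        rw [pp_dist, Real.dist_eq]
        have a1 := hy x k
        have a2 := hy x' k
        have b1 := WX_tri g f g (y x k) x (y x' k)
        have b2 := WX_tri f f g x x' (y x' k)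
        have b3 := WX_tri f g f x (y x k) x'
        have b4 := WX_tri g g f (y x k) (y x' k) x'
        rw [WX_symm g f (y x k) x] at b1
        rw [WX_symm g f (y x' k) x'] at b4
        rw [abs_le]
        constructor <;> linarith
      · have := hlim.const_mul 2
        simpa using this
    exact tendsto_nhds_unique h2 h1
  have hdense : DenseRange z := by
    rw [DenseRange, Metric.dense_iff]
    intro w r hr
    obtain ⟨w', ⟨q, rfl⟩, hw'⟩ : ∃ w' ∈ range (pp g), dist w w' < r / 2 :=
      Metric.mem_closure_iff.1 (pp_dense g w) (r / 2) (by linarith)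
    obtain ⟨x, hx⟩ := wx_apx hgf q (show 0 < r / 4 by linarith)
    refine ⟨z x, ?_, ⟨x, rfl⟩⟩
    rw [Metric.mem_ball, dist_comm]
    have h1 : dist (pp g q) (z x) ≤ r / 4 := by
      have h2 : Tendsto (fun k => dist (pp g q) (pp g (y x k))) atTop (𝓝 (dist (pp g q) (z x))) :=
        tendsto_const_nhds.dist (hz x)
      have h3 : Tendsto (fun k : ℕ => r / 4 + 1 / ((k : ℝ) + 1)) atTop (𝓝 (r / 4 + 0)) :=
        hlim.const_add _
      rw [add_zero] at h3
      refine le_of_tendsto_of_tendsto' h2 h3 ?_
      intro k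
      rw [pp_dist]
      have b1 := WX_tri g f g q x (y x k)
      have a1 := hy x k
      linarith
    have h4 := dist_triangle w (pp g q) (z x)
    linarith
  obtain ⟨e, -⟩ := iso_equiv (pp f) z (pp_dense f) hdense hdist
  exact ⟨e⟩

end Pool.Agent.H655.GE
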