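import Pool.Agent.H655.GE.Bck
import Pool.Agent.H655.GE.Fwd
import Pool.Agent.H655.UR.Main

/-! Measurability of the code. -/

namespace Pool.Agent.H655.GE

open Set Pool.Agent.H655.UR MeasureTheory
open scoped ENNReal

theorem ev_cont (n m : ℕ) : Continuous fun f : Met => f.1 n m :=
  (continuous_apply m).comp ((continuous_apply n).comp continuous_subtype_val)

theorem ev_meas (A : MeasurableSpace Met) (hA : borel Met ≤ A) (n m : ℕ) :
    @Measurable Met ℝ A _ (fun f => f.1 n m) := by
  intro S hS
  exact hA _ ((ev_cont n m).borel_measurable hS)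

theorem dd_meas (A : MeasurableSpace Met)
    (h : ∀ (s t : List ℕ) (q : ℚ), 0 ≤ q → @MeasurableSet Met A {f | Rel f f s t q})
    (s t : List ℕ) : @Measurable Met ℝ A _ (fun f => dd f f s t) := by
  apply measurable_of_Iio
  intro r
  by_cases hr : r ≤ 1
  · have e : (fun f : Met => dd f f s t) ⁻¹' Iio r =
        ⋃ q : {q : ℚ // 0 ≤ q ∧ (q : ℝ) < r}, {f : Met | Rel f f s t (q.1 : ℝ)} := by
      ext f
      simp only [mem_preimage, mem_Iio, mem_iUnion, mem_setOf_eq, Subtype.exists, exists_prop]
      constructor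
      · intro hf
        obtain ⟨ε, h0, h1, h2⟩ := rel_of_dd' hf hr
        obtain ⟨q, hq1, hq2⟩ := exists_rat_btwn h1
        exact ⟨q, ⟨by exact_mod_cast h0.trans hq1.le, hq2⟩, h2.mono hq1.le⟩
      · rintro ⟨q, ⟨h0, h1⟩, h2⟩
        exact (dd_le h2 (by exact_mod_cast h0)).trans_lt h1
    rw [e]
    exact MeasurableSet.iUnion fun q => h s t q.1 q.2.1
  · have e : (fun f : Met => dd f f s t) ⁻¹' Iio r = univ := by
      ext f
      simp only [mem_preimage, mem_Iio, mem_univ, iff_true]
      have := dd_le_one f f s t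
      linarith
    rw [e]
    exact MeasurableSet.univ

theorem vl'_meas (A : MeasurableSpace Met) (hA : borel Met ≤ A) (l : Lb') (s : List ℕ) :
    @Measurable Met ℝ A _ (fun f => vl' f l s) := by
  rcases l with c | n
  · simp only [vl']
    by_cases h : c.1 < s.length ∧ c.2.1 < s.length
    · simp only [h, and_self, if_true]
      have h1 := ev_meas A hA (s.getD c.1 0) (s.getD c.2.1 0)
      have h2 := (continuous_abs.measurable).comp (h1.sub_const (c.2.2 : ℝ))
      exact h2.min measurable_const
    · simp only [h, if_false]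
      exact measurable_const
  · simp only [vl']
    exact measurable_const

theorem EE_meas (A : MeasurableSpace Met)
    (h : ∀ (s t : List ℕ) (q : ℚ), 0 ≤ q → @MeasurableSet Met A {f | Rel f f s t q})
    (s t : List ℕ) : @Measurable Met ℝ A _ (fun f => EE f f s t) := by
  unfold EE
  split_ifs
  · exact dd_meas A h _ _
  · exact dd_meas A h _ _
  · exact dd_meas A h _ _
  · exact measurable_const

theorem WX_meas (A : MeasurableSpace Met) (hA : borel Met ≤ A)
    (h : ∀ (s t : List ℕ) (q : ℚ), 0 ≤ q → @MeasurableSet Met A {f | Rel f f s t q})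
    (x y : TT') : @Measurable Met ℝ A _ (fun f => WX f f x y) := by
  rcases x with m | p <;> rcases y with m' | q
  · simp only [WX]
    exact measurable_const
  · simp only [WX]
    exact ((vl'_meas A hA _ _).const_mul _).const_add _
  · simp only [WX]
    exact ((vl'_meas A hA _ _).const_mul _).const_add _
  · simp only [WX, tp]
    exact (((EE_meas A h _ _).max measurable_const).const_mul _).const_add _

theorem theta_meas (A : MeasurableSpace Met) (hA : borel Met ≤ A)
    (h : ∀ (s t : List ℕ) (q : ℚ), 0 ≤ q → @MeasurableSet Met A {f | Rel f f s t q}) :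
    @Measurable Met Met A (borel Met) theta := by
  have h1 : @Measurable Met (ℕ → ℕ → ℝ) A _ (fun f : Met => ((theta f).1 : ℕ → ℕ → ℝ)) := by
    refine @measurable_pi_lambda _ _ _ A _ _ fun n => @measurable_pi_lambda _ _ _ A _ _ fun m => ?_
    exact WX_meas A hA h _ _
  have h2 : @Measurable Met {f : ℕ → ℕ → ℝ // IsMet f} A _ (fun f => theta f) :=
    h1.subtype_mk
  have h3 : (Subtype.instMeasurableSpace : MeasurableSpace {f : ℕ → ℕ → ℝ // IsMet f}) =
      borel {f : ℕ → ℕ → ℝ // IsMet f} := BorelSpace.measurable_eq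
  intro S hS
  have hS' : @MeasurableSet {f : ℕ → ℕ → ℝ // IsMet f} Subtype.instMeasurableSpace S :=
    h3 ▸ hS
  exact h2 hS'

/-! ### The sets are analytic -/

/-- The space of pairs of a function and a (code of a) relation. -/
abbrev XX : Type := (ℕ → ℕ → ℝ) × (ℕ → ℕ → ℝ)

theorem fst_meas (n m : ℕ) : Measurable fun x : XX => x.1 n m :=
  (measurable_pi_apply m).comp ((measurable_pi_apply n).comp measurable_fst)

theorem snd_meas (n m : ℕ) : Measurable fun x : XX => x.2 n m = 1 := by
  have h1 : Measurable fun x : XX => x.2 n m :=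
    (measurable_pi_apply m).comp ((measurable_pi_apply n).comp measurable_snd)
  exact measurableSet_setOf.1 (h1 (measurableSet_singleton 1))

theorem forall₂_meas (s t : List ℕ) :
    Measurable fun x : XX => List.Forall₂ (fun n m => x.2 n m = 1) s t := by
  induction s generalizing t with
  | nil =>
    cases t with
    | nil => simp
    | cons b t => simp
  | cons a s ih =>
    cases t with
    | nil => simp
    | cons b t =>
      simp only [List.forall₂_cons]
      exact Measurable.and (snd_meas a b) (ih t)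

theorem isMet_meas : Measurable fun x : XX => IsMet x.1 := by
  have e : (fun x : XX => IsMet x.1) = fun x : XX =>
      (∀ n m, x.1 n m = 0 ↔ n = m) ∧ (∀ n m, x.1 n m = x.1 m n) ∧
        ∀ n m k, x.1 n k ≤ x.1 n m + x.1 m k := by
    funext x
    apply propext
    constructor
    · rintro ⟨h1, h2, h3⟩
      exact ⟨h1, h2, h3⟩
    · rintro ⟨h1, h2, h3⟩
      exact ⟨h1, h2, h3⟩
  rw [e]
  refine Measurable.and ?_ (Measurable.and ?_ ?_)
  · refine Measurable.forall fun n => Measurable.forall fun m => Measurable.iff ?_ measurable_const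
    exact measurableSet_setOf.1 ((fst_meas n m) (measurableSet_singleton 0))
  · refine Measurable.forall fun n => Measurable.forall fun m => ?_
    exact measurableSet_setOf.1 (measurableSet_eq_fun (fst_meas n m) (fst_meas m n))
  · refine Measurable.forall fun n => Measurable.forall fun m => Measurable.forall fun k => ?_
    exact measurableSet_setOf.1 (measurableSet_le (fst_meas n k) ((fst_meas n m).add (fst_meas m k)))

/-- Projections to the space of metrics of Borel sets are analytic. -/
theorem analytic_of {C : Set XX} (hC : MeasurableSet C) (hM : ∀ x ∈ C, IsMet x.1) :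
    AnalyticSet {f : Met | ∃ S : ℕ → ℕ → ℝ, ((f.1, S) : XX) ∈ C} := by
  have h1 : AnalyticSet C := hC.analyticSet
  rw [AnalyticSet] at h1
  rw [AnalyticSet]
  rcases h1 with h1 | ⟨φ, hφ, hr⟩
  · left
    rw [h1]
    simp
  · right
    have hm : ∀ x, φ x ∈ C := fun x => by rw [← hr]; exact ⟨x, rfl⟩
    refine ⟨fun x => (⟨(φ x).1, hM _ (hm x)⟩ : Met), ?_, ?_⟩
    · exact Continuous.subtype_mk (continuous_fst.comp hφ) _
    · ext f
      simp only [mem_range, mem_setOf_eq]
      constructor
      · rintro ⟨x, rfl⟩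
        exact ⟨(φ x).2, hm x⟩
      · rintro ⟨S, hS⟩
        rw [← hr] at hS
        obtain ⟨x, hx⟩ := hS
        refine ⟨x, Subtype.ext ?_⟩
        show (φ x).1 = f.1
        rw [hx]

/-- The Borel set of which the set of metrics is a projection. -/
def CC (s t : List ℕ) (q : ℝ) : Set XX :=
  {x | IsMet x.1 ∧ ((∀ n, ∃ m, x.2 n m = 1) ∧ (∀ m, ∃ n, x.2 n m = 1) ∧
    ∀ n m n' m', x.2 n m = 1 → x.2 n' m' = 1 → |x.1 n n' - x.1 m m'| ≤ q) ∧
    List.Forall₂ (fun n m => x.2 n m = 1) s t}

theorem CC_meas (s t : List ℕ) (q : ℝ) : MeasurableSet (CC s t q) := by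
  refine measurableSet_setOf.2 (Measurable.and isMet_meas (Measurable.and (Measurable.and ?_
    (Measurable.and ?_ ?_)) (forall₂_meas s t)))
  · exact Measurable.forall fun n => Measurable.exists fun m => snd_meas n m
  · exact Measurable.forall fun m => Measurable.exists fun n => snd_meas n m
  · refine Measurable.forall fun n => Measurable.forall fun m => Measurable.forall fun n' =>
      Measurable.forall fun m' => Measurable.imp (snd_meas n m) (Measurable.imp (snd_meas n' m') ?_)
    have h1 := (continuous_abs.measurable).comp ((fst_meas n n').sub (fst_meas m m'))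
    exact measurableSet_setOf.1 (measurableSet_le h1 measurable_const)

theorem rel_iff_CC (f : Met) (s t : List ℕ) (q : ℝ) :
    Rel f f s t q ↔ ∃ S : ℕ → ℕ → ℝ, ((f.1, S) : XX) ∈ CC s t q := by
  classical
  constructor
  · rintro ⟨R, ⟨h1, h2, h3⟩, h4⟩
    have e : ∀ n m, (if R n m then (1 : ℝ) else 0) = 1 ↔ R n m := by
      intro n m
      by_cases h : R n m <;> simp [h]
    refine ⟨fun n m => if R n m then 1 else 0, f.2, ⟨?_, ?_, ?_⟩, ?_⟩
    · intro n
      obtain ⟨m, hm⟩ := h1 n
      exact ⟨m, (e n m).2 hm⟩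
    · intro m
      obtain ⟨n, hn⟩ := h2 m
      exact ⟨n, (e n m).2 hn⟩
    · intro n m n' m' h5 h6
      exact h3 n m n' m' ((e _ _).1 h5) ((e _ _).1 h6)
    · exact h4.imp fun n m h => (e n m).2 h
  · rintro ⟨S, -, ⟨h1, h2, h3⟩, h4⟩
    exact ⟨fun n m => S n m = 1, ⟨h1, h2, h3⟩, h4⟩

theorem rel_analytic (s t : List ℕ) (q : ℝ) : AnalyticSet {f : Met | Rel f f s t q} := by
  have e : {f : Met | Rel f f s t q} = {f : Met | ∃ S : ℕ → ℕ → ℝ, ((f.1, S) : XX) ∈ CC s t q} := by
    ext f
    exact rel_iff_CC f s t q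
  rw [e]
  exact analytic_of (CC_meas s t q) fun x hx => hx.1

theorem borel_analytic {S : Set Met} (hS : @MeasurableSet Met (borel Met) S) : AnalyticSet S := by
  have h3 : (Subtype.instMeasurableSpace : MeasurableSpace {f : ℕ → ℕ → ℝ // IsMet f}) =
      borel {f : ℕ → ℕ → ℝ // IsMet f} := BorelSpace.measurable_eq
  have hS' : @MeasurableSet {f : ℕ → ℕ → ℝ // IsMet f} Subtype.instMeasurableSpace S :=
    h3 ▸ hS
  obtain ⟨S', h1, h2⟩ := hS'
  have e : S = {f : Met | ∃ R : ℕ → ℕ → ℝ, ((f.1, R) : XX) ∈ {x : XX | IsMet x.1 ∧ x.1 ∈ S'}} := by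
    ext f
    simp only [mem_setOf_eq]
    constructor
    · intro hf
      refine ⟨fun _ _ => 0, f.2, ?_⟩
      rw [← h2] at hf
      exact hf
    · rintro ⟨-, -, hf⟩
      rw [← h2]
      exact hf
  rw [e]
  refine analytic_of ?_ fun x hx => hx.1
  exact measurableSet_setOf.2 (Measurable.and isMet_meas (measurableSet_setOf.1 (measurable_fst h1)))

/-- The `σ`-algebra generated by the analytic sets of metrics. -/
def sigmaAnalytic : MeasurableSpace Met :=
  MeasurableSpace.generateFrom {S : Set Met | AnalyticSet S}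

theorem borel_le_analytic : borel Met ≤ sigmaAnalytic :=
  fun _ hS => MeasurableSpace.measurableSet_generateFrom (borel_analytic hS)

theorem theta_meas_analytic : @Measurable Met Met sigmaAnalytic (borel Met) theta :=
  theta_meas sigmaAnalytic borel_le_analytic fun s t q _ =>
    MeasurableSpace.measurableSet_generateFrom (rel_analytic s t (q : ℝ))

end Pool.Agent.H655.GE
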